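import Mathlib
import Pool.Agent.W968.SCx.Final

set_option autoImplicit false

namespace Pool.Agent.W968.SSC

open Pool.Agent.Helper227 Pool.Agent.H561R3 Pool.Agent.W968.SCx Finset Encodable

theorem block_eq (X : ℕ → Bool) {k l s : ℕ} (h : k + l ≤ s) :
    ((pre X s).drop k).take l = block X k l := by
  refine List.ext_getElem ?_ fun i h1 h2 => ?_
  · simp; omega
  · simp [pre, block]

theorem block_append (X : ℕ → Bool) (k l m : ℕ) :
    block X k l ++ block X (k + l) m = block X k (l + m) := by
  refine List.ext_getElem ?_ fun i h1 h2 => ?_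
  · simp
  · simp only [length_block, List.length_append] at h1 h2
    by_cases h : i < l
    · rw [List.getElem_append_left (by simpa using h)]
      simp [block]
    · rw [List.getElem_append_right (by simpa using h)]
      simp only [block, List.getElem_map, List.getElem_range, List.length_map, List.length_range]
      congr 1
      omega

/-- complexity does not increase under computable maps -/
theorem KU_map {U : List Bool →. List Bool} (hU : IsUniversal U) {g : List Bool → List Bool}
    (hg : Computable g) : ∃ C : ℕ, ∀ x, KU U (g x) ≤ KU U x + C := by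
  obtain ⟨c, hc⟩ := hU.2 (fun p => (U p).map g) ⟨hU.1.1.map (hg.comp Computable.snd), fun σ τ h1 h2 =>
    hU.1.2 σ τ h1 h2⟩
  refine ⟨c, fun x => ?_⟩
  obtain ⟨p, hp1, hp2⟩ := hU.exists_min x
  obtain ⟨p', h1, h2⟩ := hc p (g x) (Part.mem_map g hp2)
  have := KU_le h2
  omega

/-- long zero strings have small complexity -/
theorem KU_zero {U : List Bool →. List Bool} (hU : IsUniversal U) :
    ∃ C : ℕ, ∀ n, KU U (List.replicate (2 ^ n) false) ≤ n + 1 + C := by
  let req : ℕ → Option (ℕ × List Bool) := fun n =>
    some (n + 1, (List.range (2 ^ n)).map fun _ => false)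
  have hreq : Primrec req := by
    refine Primrec.option_some.comp (Primrec.succ.pair ?_)
    refine Primrec.list_map (Primrec.list_range.comp ?_) (Primrec.const false)
    exact primrec_pow.comp (Primrec.const 2) Primrec.id
  have hb : ∀ n, ∑ i ∈ Finset.range n, KC.wr req i ≤ 1 := by
    intro n
    have h1 : ∀ i, KC.wr req i = (1 / 2) ^ (i + 1) := fun i => by simp [KC.wr, req]
    simp only [h1]
    have h2 : ∑ i ∈ Finset.range n, (1 / 2 : ℝ) ^ (i + 1) = 1 - (1 / 2) ^ n := by
      induction n with
      | zero => simp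
      | succ n ih => rw [Finset.sum_range_succ, ih]; ring
    rw [h2]
    have : (0 : ℝ) ≤ (1 / 2) ^ n := by positivity
    linarith
  obtain ⟨M, hM1, hM2, hM3⟩ := KC.kraft_chaitin hreq hb
  obtain ⟨c, hc⟩ := hU.2 M ⟨hM1, hM2⟩
  refine ⟨c, fun n => ?_⟩
  obtain ⟨τ, h1, h2⟩ := hM3 n (n + 1) _ rfl
  obtain ⟨τ', h3, h4⟩ := hc τ _ h2
  have h5 : ((List.range (2 ^ n)).map fun _ => false) = List.replicate (2 ^ n) false := by
    refine List.ext_getElem (by simp) fun i h1 h2 => by simp
  rw [h5] at h4
  have := KU_le h4
  omega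

end Pool.Agent.W968.SSC
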