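import Mathlib
import Pool.Agent.W968.SSC.Code

set_option autoImplicit false

namespace Pool.Agent.W968.SSC

open Pool.Agent.Helper227 Pool.Agent.H561R3 Pool.Agent.W968.SCx Finset Encodable

/-- the aligned pieces of length `ℓ` of `b` are not `0^ℓ` -/
def GoodB (l B : ℕ) (b : List Bool) : Prop :=
  ∀ j < B, (b.drop (l * j)).take l ≠ List.replicate l false

instance (l B : ℕ) (b : List Bool) : Decidable (GoodB l B b) := by
  unfold GoodB; infer_instance

/-- the list of good blocks -/
def Lb (l B : ℕ) : List (List Bool) := (strs (l * B)).filter fun b => GoodB l B b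

theorem mem_Lb {l B : ℕ} {b : List Bool} : b ∈ Lb l B ↔ b.length = l * B ∧ GoodB l B b := by
  simp [Lb, mem_strs]

theorem length_Lb (l B : ℕ) : (Lb l B).length ≤ (2 ^ l - 1) ^ B := by
  classical
  have hnd : (Lb l B).Nodup := (nodup_strs _).filter _
  rw [← List.toFinset_card_of_nodup hnd]
  let S : Finset (List Bool) := (FS l).erase (List.replicate l false)
  have hS : S.card = 2 ^ l - 1 := by
    rw [Finset.card_erase_of_mem (mem_FS.2 (by simp)), card_FS]
  have h1 : (Fintype.piFinset fun _ : Fin B => S).card = (2 ^ l - 1) ^ B := by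
    rw [Fintype.card_piFinset]; simp [hS]
  rw [← h1]
  refine Finset.card_le_card_of_injOn (fun b => fun j : Fin B => (b.drop (l * j)).take l) ?_ ?_
  · intro b hb
    rw [Finset.mem_coe, List.mem_toFinset, mem_Lb] at hb
    rw [Finset.mem_coe, Fintype.mem_piFinset]
    intro j
    refine Finset.mem_erase.2 ⟨hb.2 j j.2, mem_FS.2 ?_⟩
    have h2 : l * (j + 1) ≤ l * B := Nat.mul_le_mul_left _ j.2
    rw [Nat.mul_succ] at h2
    simp only [List.length_take, List.length_drop, hb.1]
    omega
  · intro b hb b' hb' h
    rw [Finset.mem_coe, List.mem_toFinset, mem_Lb] at hb hb'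
    refine List.ext_getElem (hb.1.trans hb'.1.symm) fun i h1 h2 => ?_
    have hi : i < l * B := by rw [← hb.1]; exact h1
    have hl : 0 < l := by
      rcases Nat.eq_zero_or_pos l with h0 | h0
      · subst h0; simp at hi
      · exact h0
    have hj : i / l < B := by
      rw [Nat.div_lt_iff_lt_mul hl, mul_comm]; exact hi
    have h3 := congrFun h ⟨i / l, hj⟩
    simp only at h3
    have h4 : l * (i / l) + i % l = i := Nat.div_add_mod i l
    have h5 : i % l < l := Nat.mod_lt _ hl
    have h6 := congrArg (fun z => z[i % l]?) h3
    simp only [List.getElem?_take, List.getElem?_drop, h5, if_true, h4] at h6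
    rw [List.getElem?_eq_getElem h1, List.getElem?_eq_getElem h2] at h6
    exact Option.some.inj h6

attribute [-instance] List.instBEq

/-- position in a list -/
def ix (b : List Bool) (L : List (List Bool)) : ℕ := @List.idxOf (List Bool) instBEqOfDecidableEq b L

/-- encoding of blocks with `l * B` bits by `m` bits -/
def enc (l B m : ℕ) (b : List Bool) : List Bool :=
  (strs m).getD (ix b (Lb l B)) (List.replicate m false)

/-- decoding -/
def dec (l B m : ℕ) (s : List Bool) : List Bool := (Lb l B).getD (ix s (strs m)) []

theorem length_enc (l B m : ℕ) (b : List Bool) : (enc l B m b).length = m := by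
  unfold enc
  by_cases h : ix b (Lb l B) < (strs m).length
  · rw [List.getD_eq_getElem _ _ h]
    exact mem_strs.1 (List.getElem_mem _)
  · rw [List.getD_eq_default _ _ (not_lt.1 h)]
    simp

theorem length_strs (m : ℕ) : (strs m).length = 2 ^ m := by
  rw [← card_FS m, FS, List.toFinset_card_of_nodup (nodup_strs m)]

theorem dec_enc {l B m : ℕ} (h : (2 ^ l - 1) ^ B ≤ 2 ^ m) {b : List Bool} (hb : b ∈ Lb l B) :
    dec l B m (enc l B m b) = b := by
  have h1 : ix b (Lb l B) < (Lb l B).length := by
    unfold ix
    exact List.idxOf_lt_length_iff.2 hb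
  have h2 : ix b (Lb l B) < (strs m).length := by
    rw [length_strs]
    exact h1.trans_le ((length_Lb l B).trans h)
  unfold dec enc
  rw [List.getD_eq_getElem _ _ h2]
  have h3 : ix (strs m)[ix b (Lb l B)] (strs m) = ix b (Lb l B) := by
    generalize ix b (Lb l B) = i at h2
    unfold ix
    exact List.Nodup.idxOf_getElem (nodup_strs m) i h2
  rw [h3, List.getD_eq_getElem _ _ h1]
  unfold ix at h1 ⊢
  exact List.getElem_idxOf h1

theorem pr_enc (l B m : ℕ) : Primrec (enc l B m) := by
  have h1 : Primrec fun b => ix b (Lb l B) :=
    Primrec.list_idxOf.comp Primrec.id (Primrec.const (Lb l B))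
  exact (Primrec.option_getD.comp (Primrec.list_getElem?.comp (Primrec.const (strs m)) h1)
    (Primrec.const (List.replicate m false))).of_eq fun b => by
      simp [enc, List.getD_eq_getElem?_getD]

theorem pr_dec (l B m : ℕ) : Primrec (dec l B m) := by
  have h1 : Primrec fun b => ix b (strs m) :=
    Primrec.list_idxOf.comp Primrec.id (Primrec.const (strs m))
  exact (Primrec.option_getD.comp (Primrec.list_getElem?.comp (Primrec.const (Lb l B)) h1)
    (Primrec.const ([] : List Bool))).of_eq fun b => by
      simp [dec, List.getD_eq_getElem?_getD]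

/-- decoding of a concatenation of code words of length `m` -/
def Dec (l B m : ℕ) (s : List Bool) : List Bool :=
  (List.range (s.length / m)).flatMap fun j => dec l B m ((s.drop (m * j)).take m)

theorem pr_Dec (l B m : ℕ) : Primrec (Dec l B m) := by
  unfold Dec
  refine Primrec.list_flatMap (Primrec.list_range.comp (Primrec.nat_div.comp
    (Primrec.list_length.comp Primrec.id) (Primrec.const m))) ?_
  refine (pr_dec l B m).comp (Primrec.list_take.comp (Primrec.const m) (Primrec.list_drop.comp
    (Primrec.nat_mul.comp (Primrec.const m) Primrec.snd) Primrec.fst))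

/-- the encoded sequence -/
def Y (l B m : ℕ) (X : ℕ → Bool) (i : ℕ) : Bool :=
  (enc l B m (block X (l * B * (i / m)) (l * B))).getD (i % m) false

theorem Y_le (l B m : ℕ) (X : ℕ → Bool) : TLe (Y l B m X) X := by
  refine tLe_iff.2 ⟨fun x => l * B * (x.2.1 / m + 1) ≤ x.1.length ∧
    (enc l B m ((x.1.drop (l * B * (x.2.1 / m))).take (l * B))).getD (x.2.1 % m) false = x.2.2,
    S1.of_prim ?_, ?_, ?_⟩
  · refine PrimrecPred.and ?_ ?_
    · exact Primrec.nat_le.comp (Primrec.nat_mul.comp (Primrec.const (l * B)) (Primrec.succ.comp
        (Primrec.nat_div.comp (Primrec.fst.comp Primrec.snd) (Primrec.const m))))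
        (Primrec.list_length.comp Primrec.fst)
    · refine Primrec.eq.comp ?_ (Primrec.snd.comp Primrec.snd)
      have e1 : Primrec fun x : List Bool × ℕ × Bool => l * B * (x.2.1 / m) :=
        Primrec.nat_mul.comp (Primrec.const (l * B)) (Primrec.nat_div.comp
          (Primrec.fst.comp Primrec.snd) (Primrec.const m))
      have e2 : Primrec fun x : List Bool × ℕ × Bool =>
          enc l B m ((x.1.drop (l * B * (x.2.1 / m))).take (l * B)) :=
        (pr_enc l B m).comp (Primrec.list_take.comp (Primrec.const (l * B))
          (Primrec.list_drop.comp e1 Primrec.fst))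
      refine (Primrec.option_getD.comp (Primrec.list_getElem?.comp e2
        (Primrec.nat_mod.comp (Primrec.fst.comp Primrec.snd) (Primrec.const m)))
        (Primrec.const false)).of_eq fun x => ?_
      simp [List.getD_eq_getElem?_getD]
  · rintro σ τ n b ⟨z, rfl⟩ ⟨h1, h2⟩
    simp only at h1 h2 ⊢
    refine ⟨by rw [List.length_append]; omega, ?_⟩
    rw [← h2]
    have h3 : l * B * (n / m + 1) = l * B * (n / m) + l * B := by ring
    rw [List.drop_append_of_le_length (by omega), List.take_append_of_le_length (by
      rw [List.length_drop]; omega)]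
  · intro n b
    have h3 : l * B * (n / m + 1) = l * B * (n / m) + l * B := by ring
    constructor
    · intro h
      refine ⟨l * B * (n / m + 1), by simp, ?_⟩
      simp only
      rw [block_eq X (by omega)]
      exact h
    · rintro ⟨s, h1, h2⟩
      simp only [length_pre] at h1 h2
      rw [block_eq X (by omega)] at h2
      exact h2

theorem block_Y {l B m : ℕ} (hm : 0 < m) (X : ℕ → Bool) (q : ℕ) :
    block (Y l B m X) (m * q) m = enc l B m (block X (l * B * q) (l * B)) := by
  refine List.ext_getElem (by simp [length_enc]) fun i h1 h2 => ?_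
  rw [length_block] at h1
  have e1 : (m * q + i) / m = q := by
    rw [Nat.mul_add_div hm, Nat.div_eq_of_lt h1, add_zero]
  have e2 : (m * q + i) % m = i := by
    rw [Nat.mul_add_mod, Nat.mod_eq_of_lt h1]
  have e3 : (block (Y l B m X) (m * q) m)[i] = Y l B m X (m * q + i) := by
    simp only [block, List.getElem_map, List.getElem_range]
  rw [e3]
  unfold Y
  rw [e1, e2, List.getD_eq_getElem _ _ h2]

theorem Dec_Y {l B m : ℕ} (hm : 0 < m) (h : (2 ^ l - 1) ^ B ≤ 2 ^ m) {X : ℕ → Bool}
    (hX : ∀ k, block X k l ≠ List.replicate l false) (q r : ℕ) :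
    Dec l B m (block (Y l B m X) (m * q) (m * r)) = block X (l * B * q) (l * B * r) := by
  have hgood : ∀ j, block X (l * B * j) (l * B) ∈ Lb l B := by
    intro j
    refine mem_Lb.2 ⟨length_block _ _ _, fun i hi => ?_⟩
    have h2 : l * (i + 1) ≤ l * B := Nat.mul_le_mul_left _ hi
    rw [Nat.mul_succ] at h2
    have h3 : ((block X (l * B * j) (l * B)).drop (l * i)).take l = block X (l * B * j + l * i) l := by
      refine List.ext_getElem ?_ fun a h4 h5 => ?_
      · simp only [List.length_take, List.length_drop, length_block]; omega
      · simp only [block, List.getElem_take, List.getElem_drop, List.getElem_map,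
          List.getElem_range]
        congr 1
        omega
    rw [h3]
    exact hX _
  unfold Dec
  rw [length_block, Nat.mul_div_cancel_left _ hm]
  have h4 : ∀ j ∈ List.range r, dec l B m (((block (Y l B m X) (m * q) (m * r)).drop (m * j)).take m) =
      block X (l * B * (q + j)) (l * B) := by
    intro j hj
    rw [List.mem_range] at hj
    have h2 : m * (j + 1) ≤ m * r := Nat.mul_le_mul_left _ hj
    rw [Nat.mul_succ] at h2
    have h3 : ((block (Y l B m X) (m * q) (m * r)).drop (m * j)).take m =
        block (Y l B m X) (m * (q + j)) m := by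
      refine List.ext_getElem ?_ fun a h4 h5 => ?_
      · simp only [List.length_take, List.length_drop, length_block]; omega
      · simp only [block, List.getElem_take, List.getElem_drop, List.getElem_map,
          List.getElem_range]
        congr 1
        ring
    rw [h3, block_Y hm, dec_enc h (hgood _)]
  rw [List.flatMap_congr h4]
  clear h4
  induction r with
  | zero => simp [block]
  | succ r ih =>
    rw [List.range_succ, List.flatMap_append, ih]
    simp only [List.flatMap_cons, List.flatMap_nil, List.append_nil]
    have e : l * B * (q + r) = l * B * q + l * B * r := by ring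
    rw [e, block_append]
    congr 1

end Pool.Agent.W968.SSC
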