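import Mathlib
import Pool.Agent.W968.SSC.Enc

set_option autoImplicit false

namespace Pool.Agent.W968.SSC

open Pool.Agent.Helper227 Pool.Agent.H561R3 Pool.Agent.W968.SCx Finset Encodable Filter

theorem exists_scale {δ : ℝ} (hδ : 0 < δ) (a : ℝ) : ∃ n : ℕ, (n : ℝ) + a < δ * 2 ^ n := by
  have h1 : Tendsto (fun n : ℕ => (n : ℝ) ^ 1 / 2 ^ n + a * (1 / 2) ^ n) atTop (nhds (0 + a * 0)) :=
    (tendsto_pow_const_div_const_pow_of_one_lt 1 (by norm_num : (1 : ℝ) < 2)).add
      ((tendsto_pow_atTop_nhds_zero_of_lt_one (by norm_num) (by norm_num)).const_mul a)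
  rw [mul_zero, add_zero] at h1
  obtain ⟨n, hn⟩ := (h1.eventually (gt_mem_nhds hδ)).exists
  refine ⟨n, ?_⟩
  have h2 : (0 : ℝ) < 2 ^ n := by positivity
  have h3 := mul_lt_mul_of_pos_right hn h2
  have h4 : ((n : ℝ) ^ 1 / 2 ^ n + a * (1 / 2) ^ n) * 2 ^ n = n + a := by
    have h5 : ((1 : ℝ) / 2) ^ n * 2 ^ n = 1 := by rw [← mul_pow]; norm_num
    rw [add_mul, div_mul_cancel₀ _ h2.ne', mul_assoc, h5]; simp
  rw [h4] at h3
  exact h3

theorem exists_rep {l : ℕ} (hl : 0 < l) : ∃ B m : ℕ, 0 < m ∧ l * B = m + 1 ∧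
    (2 ^ l - 1) ^ B ≤ 2 ^ m := by
  have h2 : (0 : ℝ) < 2 ^ l := by positivity
  have hr1 : ((2 : ℝ) ^ l - 1) / 2 ^ l < 1 := by
    rw [div_lt_one h2]; linarith
  have hr0 : 0 ≤ ((2 : ℝ) ^ l - 1) / 2 ^ l := by
    refine div_nonneg ?_ h2.le
    have : (1 : ℝ) ≤ 2 ^ l := one_le_pow₀ (by norm_num)
    linarith
  obtain ⟨B0, hB0⟩ := exists_pow_lt_of_lt_one (by norm_num : (0 : ℝ) < 1 / 2) hr1
  have hB : 2 ≤ l * (B0 + 2) := by nlinarith
  refine ⟨B0 + 2, l * (B0 + 2) - 1, by omega, by omega, ?_⟩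
  have h3 : (((2 : ℝ) ^ l - 1) / 2 ^ l) ^ (B0 + 2) ≤ 1 / 2 :=
    (pow_le_pow_of_le_one hr0 hr1.le (by omega)).trans hB0.le
  have h4 : ((2 : ℝ) ^ l - 1) ^ (B0 + 2) ≤ 2 ^ (l * (B0 + 2) - 1) := by
    rw [div_pow, div_le_iff₀ (by positivity), ← pow_mul] at h3
    have h5 : (2 : ℝ) ^ (l * (B0 + 2)) = 2 * 2 ^ (l * (B0 + 2) - 1) := by
      rw [← pow_succ']
      congr 1
      omega
    rw [h5] at h3
    linarith
  have h6 : (((2 ^ l - 1 : ℕ) : ℝ)) = (2 : ℝ) ^ l - 1 := by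
    rw [Nat.cast_sub Nat.one_le_two_pow]; simp
  have h7 : (((2 ^ l - 1) ^ (B0 + 2) : ℕ) : ℝ) ≤ ((2 ^ (l * (B0 + 2) - 1) : ℕ) : ℝ) := by
    rw [Nat.cast_pow, h6]
    simpa using h4
  exact_mod_cast h7

/-- Every shift complex sequence computes a shift complex sequence of a larger rate. -/
theorem gain {U : List Bool →. List Bool} (hU : IsUniversal U) {δ : ℝ} (hδ : 0 < δ)
    {X : ℕ → Bool} (hX : X ∈ SC U δ) : ∃ Z, TLe Z X ∧ ∃ ε > 0, Z ∈ SC U (δ + ε) := by
  classical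
  obtain ⟨c, hc⟩ := hX
  obtain ⟨C0, hC0⟩ := KU_zero hU
  obtain ⟨n, hn⟩ := exists_scale hδ (1 + C0 + c)
  set l := 2 ^ n with hl
  have hl0 : 0 < l := by positivity
  have hne : ∀ k, block X k l ≠ List.replicate l false := by
    intro k h
    have h1 := hc k l
    rw [h] at h1
    have h2 : (KU U (List.replicate l false) : ℝ) ≤ n + 1 + C0 := by exact_mod_cast hC0 n
    have h3 : ((l : ℕ) : ℝ) = 2 ^ n := by rw [hl]; push_cast; rfl
    rw [h3] at h1
    linarith
  obtain ⟨B, m, hm, hlB, hcard⟩ := exists_rep hl0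
  refine ⟨Y l B m X, Y_le l B m X, δ / m, by positivity, ?_⟩
  have hmap : ∀ u v : List Bool, ∃ C : ℕ, ∀ x, KU U (Dec l B m (u ++ x ++ v)) ≤ KU U x + C := by
    intro u v
    refine KU_map hU (g := fun x => Dec l B m (u ++ x ++ v)) ?_
    exact ((pr_Dec l B m).comp (Primrec.list_append.comp (Primrec.list_append.comp
      (Primrec.const u) Primrec.id) (Primrec.const v))).to_comp
  choose C hC using hmap
  let T : Finset (List Bool × List Bool) := (upTo m).toFinset ×ˢ (upTo m).toFinset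
  refine ⟨c + T.sup fun p => C p.1 p.2, fun k l' => ?_⟩
  set q0 := k / m with hq0
  set q1 := (k + l') / m + 1 with hq1
  have e0 : m * q0 ≤ k := Nat.mul_div_le k m
  have e0' : k < m * q0 + m := by
    have := Nat.lt_mul_div_succ k hm
    rw [Nat.mul_succ] at this
    exact this
  have e1 : k + l' < m * q1 := Nat.lt_mul_div_succ _ hm
  have e1' : m * q1 ≤ k + l' + m := by
    have := Nat.mul_div_le (k + l') m
    rw [hq1, Nat.mul_succ]
    omega
  have e2 : q0 ≤ q1 := (Nat.div_le_div_right (Nat.le_add_right k l')).trans (Nat.le_succ _)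
  set u := block (Y l B m X) (m * q0) (k - m * q0) with hu
  set v := block (Y l B m X) (k + l') (m * q1 - (k + l')) with hv
  have e3 : u ++ block (Y l B m X) k l' ++ v = block (Y l B m X) (m * q0) (m * (q1 - q0)) := by
    have h1 : u ++ block (Y l B m X) k l' = block (Y l B m X) (m * q0) (k - m * q0 + l') := by
      rw [hu]
      have h2 : block (Y l B m X) k l' = block (Y l B m X) (m * q0 + (k - m * q0)) l' := by
        congr 1; omega
      rw [h2, block_append]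
    rw [h1, hv]
    have h2 : block (Y l B m X) (k + l') (m * q1 - (k + l')) =
        block (Y l B m X) (m * q0 + (k - m * q0 + l')) (m * q1 - (k + l')) := by
      congr 1; omega
    rw [h2, block_append]
    congr 1
    rw [Nat.mul_sub]
    omega
  have e4 := hC u v (block (Y l B m X) k l')
  rw [e3, Dec_Y hm hcard hne] at e4
  have e5 : C u v ≤ T.sup fun p => C p.1 p.2 := by
    refine Finset.le_sup (f := fun p : List Bool × List Bool => C p.1 p.2) (b := (u, v)) ?_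
    simp only [T, Finset.mem_product, List.mem_toFinset, mem_upTo]
    constructor
    · rw [hu, length_block]; omega
    · rw [hv, length_block]; omega
  have e6 := hc (l * B * q0) (l * B * (q1 - q0))
  have e7 : l' ≤ m * (q1 - q0) := by
    rw [Nat.mul_sub]; omega
  have e4' : (KU U (block X (l * B * q0) (l * B * (q1 - q0))) : ℝ) ≤
      KU U (block (Y l B m X) k l') + (T.sup fun p => C p.1 p.2 : ℕ) := by
    have := e4.trans (Nat.add_le_add_left e5 _)
    exact_mod_cast this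
  have hm' : (0 : ℝ) < m := by exact_mod_cast hm
  have e7' : (l' : ℝ) ≤ m * ((q1 - q0 : ℕ) : ℝ) := by exact_mod_cast e7
  have e8 : ((l * B * (q1 - q0) : ℕ) : ℝ) = (m + 1) * ((q1 - q0 : ℕ) : ℝ) := by
    rw [hlB]; push_cast; ring
  rw [e8] at e6
  have e9 : (l' : ℝ) / m ≤ ((q1 - q0 : ℕ) : ℝ) := by
    rw [div_le_iff₀ hm']; linarith
  have e10 : δ * (l' + l' / m) ≤ δ * ((m + 1) * ((q1 - q0 : ℕ) : ℝ)) := by
    refine mul_le_mul_of_nonneg_left ?_ hδ.le
    linarith
  have e11 : (δ + δ / m) * l' = δ * (l' + l' / m) := by ring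
  rw [e11]
  push_cast
  linarith

end Pool.Agent.W968.SSC
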