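import Mathlib
import Pool.Agent.W968.SSC.Gain

set_option autoImplicit false

namespace Pool.Agent.W968.SSC

open Pool.Agent.Helper227 Pool.Agent.H561R3 Pool.Agent.W968.SCx Finset Encodable Filter
  MeasureTheory
open scoped ENNReal

/-- A continuous semimeasure on binary strings. -/
structure IsSemimeasure (ν : List Bool → ℝ) : Prop where
  nonneg : ∀ σ, 0 ≤ ν σ
  root : ν [] = 1
  split : ∀ σ, ν (σ ++ [false]) + ν (σ ++ [true]) ≤ ν σ

/-- `ν` is left r.e.: the pairs of a string `σ` and a nonnegative rational below `ν σ` can be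
enumerated. -/
def LeftRE (ν : List Bool → ℝ) : Prop :=
  REPred fun x : List Bool × ℕ × ℕ => (x.2.1 : ℝ) / (x.2.2 + 1) < ν x.1

/-- `M` is a universal left r.e. continuous semimeasure: it dominates every left r.e. continuous
semimeasure up to a multiplicative constant. -/
structure IsUniversalSM (M : List Bool → ℝ) : Prop where
  semi : IsSemimeasure M
  lre : LeftRE M
  dom : ∀ ν : List Bool → ℝ, IsSemimeasure ν → LeftRE ν → ∃ c : ℝ, 0 < c ∧ ∀ σ, ν σ ≤ c * M σ

/-- A priori complexity. -/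
noncomputable def KA (M : List Bool → ℝ) (σ : List Bool) : ℝ := -Real.logb 2 (M σ)

/-- The strongly `δ`-shift complex sequences: for some constant `c` every block `σ` of `X`
satisfies `KA(σ) ≥ δ |σ| - c`. -/
def SSC (M : List Bool → ℝ) (δ : ℝ) : Set (ℕ → Bool) :=
  {X | ∃ c : ℕ, ∀ k l : ℕ, δ * l - c ≤ KA M (block X k l)}

/-! ### the semimeasure given by a prefix-free machine -/

/-- the sequences on which the machine writes an extension of `σ` -/
def OS (U : List Bool →. List Bool) (σ : List Bool) : Set (ℕ → Bool) :=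
  {Z | ∃ t, ∃ y, y ∈ U (pre Z t) ∧ σ <+: y}

theorem meas_OS (U : List Bool →. List Bool) (σ : List Bool) : MeasurableSet (OS U σ) :=
  measurableSet_open fun _ τ => ∃ y, y ∈ U τ ∧ σ <+: y

open Classical in
/-- the semimeasure of the machine -/
noncomputable def nu (U : List Bool →. List Bool) (σ : List Bool) : ℝ :=
  if σ = [] then 1 else (lam (OS U σ)).toReal

theorem OS_unique {U : List Bool →. List Bool} (hU : IsMachine U) {Z : ℕ → Bool} {t t' : ℕ}
    {y y' : List Bool} (h : y ∈ U (pre Z t)) (h' : y' ∈ U (pre Z t')) : y = y' := by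
  have key : pre Z t = pre Z t' := by
    rcases Nat.le_total t t' with h1 | h1
    · exact hU.2 _ _ (Part.dom_iff_mem.2 ⟨_, h⟩) (Part.dom_iff_mem.2 ⟨_, h'⟩) (pre_prefix Z h1)
    · exact (hU.2 _ _ (Part.dom_iff_mem.2 ⟨_, h'⟩) (Part.dom_iff_mem.2 ⟨_, h⟩)
        (pre_prefix Z h1)).symm
  rw [key] at h
  exact Part.mem_unique h h'

theorem OS_split {U : List Bool →. List Bool} (hU : IsMachine U) (σ : List Bool) :
    lam (OS U (σ ++ [false])) + lam (OS U (σ ++ [true])) ≤ lam (OS U σ) := by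
  rw [← measure_union ?_ (meas_OS U _)]
  · refine measure_mono ?_
    rintro Z (⟨t, y, h1, h2⟩ | ⟨t, y, h1, h2⟩)
    · exact ⟨t, y, h1, (List.prefix_append _ _).trans h2⟩
    · exact ⟨t, y, h1, (List.prefix_append _ _).trans h2⟩
  · rw [Set.disjoint_left]
    rintro Z ⟨t, y, h1, h2⟩ ⟨t', y', h1', h2'⟩
    have h3 := OS_unique hU h1 h1'
    subst h3
    have h4 := List.prefix_of_prefix_length_le h2 h2' (by simp)
    have h5 := h4.eq_of_length (by simp)
    simp at h5

theorem nu_semi {U : List Bool →. List Bool} (hU : IsMachine U) : IsSemimeasure (nu U) := by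
  refine ⟨fun σ => ?_, by simp [nu], fun σ => ?_⟩
  · unfold nu
    split_ifs
    · exact zero_le_one
    · exact ENNReal.toReal_nonneg
  · have h1 : ∀ b : Bool, nu U (σ ++ [b]) = (lam (OS U (σ ++ [b]))).toReal := fun b => by
      simp [nu]
    rw [h1, h1, ← ENNReal.toReal_add (measure_ne_top _ _) (measure_ne_top _ _)]
    have h2 := OS_split hU σ
    unfold nu
    split_ifs with h
    · have h3 : lam (OS U σ) ≤ 1 := prob_le_one
      have := ENNReal.toReal_mono ENNReal.one_ne_top (h2.trans h3)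
      simpa using this
    · exact ENNReal.toReal_mono (measure_ne_top _ _) h2

theorem s1_graph {U : List Bool →. List Bool} (hU : Partrec U) :
    S1 fun x : List Bool × List Bool => x.2 ∈ U x.1 := by
  have h1 : Partrec fun x : List Bool × List Bool => (U x.1).bind fun y =>
      (if y = x.2 then Part.some () else Part.none) := by
    refine Partrec.bind (hU.comp Computable.fst) ?_
    have h2 : PrimrecPred fun z : (List Bool × List Bool) × List Bool => z.2 = z.1.2 :=
      Primrec.eq.comp Primrec.snd (Primrec.snd.comp Primrec.fst)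
    have h3 : Partrec fun z : (List Bool × List Bool) × List Bool =>
        (cond (decide (z.2 = z.1.2)) (Part.some ()) Part.none : Part Unit) :=
      Partrec.cond h2.decide.to_comp (Computable.const ()).partrec Partrec.none
    refine h3.of_eq fun z => ?_
    by_cases h : z.2 = z.1.2 <;> simp [h]
  refine (S1.of_re h1.dom_re).of_eq fun x => ?_
  simp only [Part.bind_dom]
  constructor
  · rintro ⟨h, h2⟩
    by_cases h3 : (U x.1).get h = x.2
    · rw [← h3]; exact Part.get_mem h
    · rw [if_neg h3] at h2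
      exact h2.elim
  · intro h
    refine ⟨Part.dom_iff_mem.2 ⟨_, h⟩, ?_⟩
    have h3 : (U x.1).get (Part.dom_iff_mem.2 ⟨_, h⟩) = x.2 :=
      Part.get_eq_of_mem h _
    rw [h3, if_pos rfl]
    trivial

theorem pr_prefix : PrimrecPred fun x : List Bool × List Bool => x.1 <+: x.2 := by
  have h : PrimrecPred fun x : List Bool × List Bool => x.2.take x.1.length = x.1 :=
    Primrec.eq.comp (Primrec.list_take.comp (Primrec.list_length.comp Primrec.fst) Primrec.snd)
      Primrec.fst
  refine h.of_eq fun x => ?_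
  rw [List.prefix_iff_eq_take]
  exact eq_comm

theorem nu_lre {U : List Bool →. List Bool} (hU : Partrec U) : LeftRE (nu U) := by
  unfold LeftRE
  refine S1.re ?_
  have h1 : S1 fun x : (List Bool × ℕ × ℕ) × List Bool => ∃ y, y ∈ U x.2 ∧ x.1.1 <+: y := by
    refine S1.ex (S1.and ?_ (S1.of_prim ?_))
    · exact (s1_graph hU).comp ((Primrec.snd.comp Primrec.fst).pair Primrec.snd)
    · exact pr_prefix.comp ((Primrec.fst.comp (Primrec.fst.comp Primrec.fst)).pair Primrec.snd)
  have h2 := s1_measure_gt (P := fun (x : List Bool × ℕ × ℕ) τ => ∃ y, y ∈ U τ ∧ x.1 <+: y) h1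
    (a := fun x => x.2.1) (b := fun x => x.2.2 + 1) (Primrec.fst.comp Primrec.snd)
    (Primrec.succ.comp (Primrec.snd.comp Primrec.snd)) (fun x => by omega)
  have h3 : S1 fun x : List Bool × ℕ × ℕ => (x.1 = [] ∧ x.2.1 < x.2.2 + 1) ∨ (x.1 ≠ [] ∧
      ((x.2.1 : ℕ) : ℝ≥0∞) / ((x.2.2 + 1 : ℕ) : ℝ≥0∞) <
        lam {X | ∃ t, ∃ y, y ∈ U (pre X t) ∧ x.1 <+: y}) := by
    refine S1.or (S1.of_prim (PrimrecPred.and ?_ ?_)) (S1.and (S1.of_prim ?_) h2)
    · exact Primrec.eq.comp Primrec.fst (Primrec.const [])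
    · exact Primrec.nat_lt.comp (Primrec.fst.comp Primrec.snd)
        (Primrec.succ.comp (Primrec.snd.comp Primrec.snd))
    · exact PrimrecPred.not (Primrec.eq.comp Primrec.fst (Primrec.const []))
  refine h3.of_eq fun x => ?_
  obtain ⟨σ, p, q⟩ := x
  have hq : (0 : ℝ) < q + 1 := by positivity
  simp only
  unfold nu
  by_cases h : σ = []
  · simp only [h, if_true, ne_eq, not_true_eq_false, false_and, or_false, true_and]
    rw [div_lt_one hq]
    constructor
    · intro h; exact_mod_cast h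
    · intro h; exact_mod_cast h
  · simp only [h, if_false, ne_eq, not_false_eq_true, true_and, false_and, false_or]
    have h4 : ((p : ℕ) : ℝ≥0∞) / ((q + 1 : ℕ) : ℝ≥0∞) ≠ ∞ :=
      ENNReal.div_ne_top (ENNReal.natCast_ne_top _) (by simp)
    have h5 : (lam (OS U σ)) ≠ ∞ := measure_ne_top _ _
    have h6 : (((p : ℕ) : ℝ≥0∞) / ((q + 1 : ℕ) : ℝ≥0∞)).toReal = (p : ℝ) / (q + 1) := by
      rw [ENNReal.toReal_div, ENNReal.toReal_natCast, ENNReal.toReal_natCast]
      push_cast; rfl
    rw [← h6, ENNReal.toReal_lt_toReal h4 h5]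
    rfl

theorem nu_ge {U : List Bool →. List Bool} (hU : IsUniversal U) (σ : List Bool) :
    (1 / 2 : ℝ) ^ KU U σ ≤ nu U σ := by
  obtain ⟨τ, h1, h2⟩ := hU.exists_min σ
  unfold nu
  split_ifs with h
  · exact pow_le_one₀ (by norm_num) (by norm_num)
  · have h3 : cyl τ ⊆ OS U σ := by
      intro Z hZ
      rw [mem_cyl_iff] at hZ
      exact ⟨τ.length, σ, by rw [hZ]; exact h2, List.prefix_refl _⟩
    have h4 := measure_mono (μ := lam) h3
    rw [lam_cyl, h1] at h4
    have h5 := ENNReal.toReal_mono (measure_ne_top _ _) h4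
    simpa using h5

theorem KA_le {U : List Bool →. List Bool} (hU : IsUniversal U) {M : List Bool → ℝ}
    (hM : IsUniversalSM M) : ∃ C : ℝ, (∀ σ, 0 < M σ) ∧ ∀ σ, KA M σ ≤ KU U σ + C := by
  obtain ⟨c, hc, h⟩ := hM.dom (nu U) (nu_semi hU.1) (nu_lre hU.1.1)
  have h1 : ∀ σ, (1 / 2 : ℝ) ^ KU U σ / c ≤ M σ := fun σ => by
    rw [div_le_iff₀ hc, mul_comm]
    exact (nu_ge hU σ).trans (h σ)
  have hpos : ∀ σ, 0 < M σ := fun σ => lt_of_lt_of_le (by positivity) (h1 σ)
  refine ⟨Real.logb 2 c, hpos, fun σ => ?_⟩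
  unfold KA
  have h2 : Real.logb 2 ((1 / 2 : ℝ) ^ KU U σ / c) ≤ Real.logb 2 (M σ) :=
    Real.logb_le_logb_of_le (by norm_num) (by positivity) (h1 σ)
  rw [Real.logb_div (by positivity) hc.ne', one_div, inv_pow, Real.logb_inv,
    Real.logb_pow, Real.logb_self_eq_one (by norm_num), mul_one] at h2
  linarith

end Pool.Agent.W968.SSC
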