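import Mathlib
import Pool.Agent.W968.SSC.Semi

set_option autoImplicit false

namespace Pool.Agent.W968.SSC

open Pool.Agent.Helper227 Pool.Agent.H561R3 Pool.Agent.W968.SCx Finset Encodable Filter

/-- a binary logarithm -/
def lg : ℕ → ℕ
  | 0 => 0
  | n + 1 => if n + 2 ≤ 2 ^ lg n then lg n else lg n + 1

theorem lg_spec (n : ℕ) : n + 1 ≤ 2 ^ lg n ∧ 2 ^ lg n ≤ 2 * (n + 1) := by
  induction n with
  | zero => simp [lg]
  | succ n ih =>
    rw [lg]
    split_ifs with h
    · constructor <;> omega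
    · rw [pow_succ]
      constructor <;> omega

theorem pr_lg : Primrec lg := by
  have h : Primrec₂ fun n r : ℕ => if n + 2 ≤ 2 ^ r then r else r + 1 := by
    refine Primrec.ite ?_ Primrec.snd (Primrec.succ.comp Primrec.snd)
    exact Primrec.nat_le.comp (Primrec.succ.comp (Primrec.succ.comp Primrec.fst))
      (primrec_pow.comp (Primrec.const 2) Primrec.snd)
  refine (Primrec.nat_rec₁ 0 h).of_eq fun n => ?_
  induction n with
  | zero => rfl
  | succ n ih =>
    simp only [lg]
    rw [← ih]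

variable {M : List Bool → ℝ}

theorem sum_FS_le (hM : IsSemimeasure M) (n : ℕ) : ∑ σ ∈ FS n, M σ ≤ 1 := by
  have key : ∀ n, ∀ F : Finset (List Bool), (∀ σ ∈ F, σ.length = n) → ∑ σ ∈ F, M σ ≤ 1 := by
    intro n
    induction n with
    | zero =>
      intro F hF
      have h1 : F ⊆ {[]} := fun σ hσ => by
        rw [Finset.mem_singleton]
        exact List.length_eq_zero_iff.1 (hF σ hσ)
      calc ∑ σ ∈ F, M σ ≤ ∑ σ ∈ ({[]} : Finset (List Bool)), M σ :=
            Finset.sum_le_sum_of_subset_of_nonneg h1 fun σ _ _ => hM.nonneg σ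
        _ = 1 := by rw [Finset.sum_singleton, hM.root]
    | succ n ih =>
      intro F hF
      classical
      let G := F.image List.dropLast
      have h1 : ∀ σ ∈ G, σ.length = n := by
        intro σ hσ
        obtain ⟨τ, hτ, rfl⟩ := Finset.mem_image.1 hσ
        rw [List.length_dropLast, hF τ hτ]
        rfl
      refine le_trans ?_ (ih G h1)
      rw [← Finset.sum_fiberwise_of_maps_to (fun σ hσ => Finset.mem_image_of_mem _ hσ :
        ∀ σ ∈ F, List.dropLast σ ∈ G)]
      refine Finset.sum_le_sum fun σ _ => ?_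
      have h2 : F.filter (fun τ => τ.dropLast = σ) ⊆ {σ ++ [false], σ ++ [true]} := by
        intro τ hτ
        rw [Finset.mem_filter] at hτ
        have h3 : τ ≠ [] := by
          intro h
          have := hF τ hτ.1
          rw [h] at this
          simp at this
        have h4 := List.dropLast_append_getLast h3
        rw [hτ.2] at h4
        rw [Finset.mem_insert, Finset.mem_singleton, ← h4]
        cases τ.getLast h3
        · left; rfl
        · right; rfl
      calc ∑ τ ∈ F.filter (fun τ => τ.dropLast = σ), M τ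
          ≤ ∑ τ ∈ ({σ ++ [false], σ ++ [true]} : Finset (List Bool)), M τ :=
            Finset.sum_le_sum_of_subset_of_nonneg h2 fun τ _ _ => hM.nonneg τ
        _ = M (σ ++ [false]) + M (σ ++ [true]) := Finset.sum_pair (by simp)
        _ ≤ M σ := hM.split σ
  exact key n _ fun σ hσ => mem_FS.1 hσ

theorem geom_le {m : ℝ} (hm : 0 ≤ m) (S : Finset ℕ) (hS : ∀ k ∈ S, (1 / 2 : ℝ) ^ k < m) :
    ∑ k ∈ S, (1 / 2 : ℝ) ^ k ≤ 2 * m := by
  rcases S.eq_empty_or_nonempty with h | h
  · subst h; simpa using hm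
  · have h1 := hS _ (S.min'_mem h)
    set k0 := S.min' h
    have h2 : ∀ n, ∑ k ∈ Finset.range n, (1 / 2 : ℝ) ^ (k0 + k) = 2 * (1 / 2) ^ k0 - (1 / 2) ^ k0 * 2 * (1 / 2) ^ n := by
      intro n
      induction n with
      | zero => simp; ring
      | succ n ih => rw [Finset.sum_range_succ, ih]; ring
    have h3 : S ⊆ (Finset.range (S.sup id + 1)).image fun k => k0 + k := by
      intro k hk
      rw [Finset.mem_image]
      have h4 : k0 ≤ k := S.min'_le k hk
      have h5 : k ≤ S.sup id := Finset.le_sup (f := id) hk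
      exact ⟨k - k0, by rw [Finset.mem_range]; omega, by omega⟩
    calc ∑ k ∈ S, (1 / 2 : ℝ) ^ k
        ≤ ∑ k ∈ (Finset.range (S.sup id + 1)).image fun k => k0 + k, (1 / 2 : ℝ) ^ k :=
          Finset.sum_le_sum_of_subset_of_nonneg h3 fun _ _ _ => by positivity
      _ = ∑ k ∈ Finset.range (S.sup id + 1), (1 / 2 : ℝ) ^ (k0 + k) :=
          Finset.sum_image fun a _ b _ h => Nat.add_left_cancel h
      _ = _ := h2 _
      _ ≤ 2 * m := by
          have : (0 : ℝ) ≤ (1 / 2) ^ k0 * 2 * (1 / 2) ^ (S.sup id + 1) := by positivity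
          linarith

theorem sum_sq' (n : ℕ) :
    ∑ i ∈ Finset.range (n + 1), (1 / 2 : ℝ) ^ (2 * lg i) ≤ 2 - 1 / (n + 1) := by
  have h0 : ∀ i, (1 / 2 : ℝ) ^ (2 * lg i) ≤ 1 / ((i + 1) ^ 2 : ℝ) := by
    intro i
    have h1 : ((i : ℝ) + 1) ≤ 2 ^ lg i := by exact_mod_cast (lg_spec i).1
    rw [one_div_pow, mul_comm, pow_mul]
    refine one_div_le_one_div_of_le (by positivity) ?_
    exact pow_le_pow_left₀ (by positivity) h1 2
  induction n with
  | zero =>
    have := h0 0
    simp at this ⊢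
    linarith
  | succ n ih =>
    rw [Finset.sum_range_succ]
    have h1 := h0 (n + 1)
    have h2 : (1 : ℝ) / (((n + 1 : ℕ) : ℝ) + 1) ^ 2 + 1 / (((n + 1 : ℕ) : ℝ) + 1) ≤
        1 / ((n : ℝ) + 1) := by
      have hn : (0 : ℝ) ≤ n := Nat.cast_nonneg n
      push_cast
      rw [div_add_div _ _ (by positivity) (by positivity), div_le_div_iff₀ (by positivity)
        (by positivity)]
      nlinarith [sq_nonneg ((n : ℝ) + 1)]
    linarith

theorem sum_sq (n : ℕ) : ∑ i ∈ Finset.range n, (1 / 2 : ℝ) ^ (2 * lg i) ≤ 2 := by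
  have h1 := sum_sq' n
  have h2 : (0 : ℝ) ≤ 1 / ((n : ℝ) + 1) := by positivity
  rw [Finset.sum_range_succ] at h1
  have h3 : (0 : ℝ) ≤ (1 / 2) ^ (2 * lg n) := by positivity
  linarith

/-- weight of a finite set of requests -/
theorem weight_le (hM : IsSemimeasure M) (T : Finset (List Bool × ℕ))
    (hT : ∀ x ∈ T, (1 / 2 : ℝ) ^ x.2 < M x.1) :
    ∑ x ∈ T, (1 / 2 : ℝ) ^ (x.2 + 2 + 2 * lg x.1.length) ≤ 1 := by
  classical
  let P := T.image Prod.fst
  have h1 : ∀ σ ∈ P, ∑ x ∈ T.filter (fun x => x.1 = σ),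
      (1 / 2 : ℝ) ^ (x.2 + 2 + 2 * lg x.1.length) ≤ (1 / 2) * (1 / 2) ^ (2 * lg σ.length) * M σ := by
    intro σ _
    have h2 : ∑ x ∈ T.filter (fun x => x.1 = σ), (1 / 2 : ℝ) ^ (x.2 + 2 + 2 * lg x.1.length) =
        (1 / 4) * (1 / 2) ^ (2 * lg σ.length) *
          ∑ k ∈ (T.filter (fun x => x.1 = σ)).image Prod.snd, (1 / 2 : ℝ) ^ k := by
      rw [Finset.sum_image, Finset.mul_sum]
      · refine Finset.sum_congr rfl fun x hx => ?_
        rw [(Finset.mem_filter.1 hx).2, pow_add, pow_add]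
        ring
      · intro x hx y hy h
        have hx := Finset.mem_filter.1 hx
        have hy := Finset.mem_filter.1 hy
        exact Prod.ext (hx.2.trans hy.2.symm) h
    have h3 := geom_le (hM.nonneg σ) ((T.filter (fun x => x.1 = σ)).image Prod.snd) (by
      intro k hk
      obtain ⟨x, hx, rfl⟩ := Finset.mem_image.1 hk
      have hx := Finset.mem_filter.1 hx
      rw [← hx.2]
      exact hT x hx.1)
    rw [h2]
    have h4 : (0 : ℝ) ≤ (1 / 4) * (1 / 2) ^ (2 * lg σ.length) := by positivity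
    have h5 := mul_le_mul_of_nonneg_left h3 h4
    linarith
  rw [← Finset.sum_fiberwise_of_maps_to (fun x hx => Finset.mem_image_of_mem _ hx :
    ∀ x ∈ T, Prod.fst x ∈ P)]
  refine (Finset.sum_le_sum h1).trans ?_
  let N := P.sup List.length + 1
  have h6 : ∀ σ ∈ P, σ.length ∈ Finset.range N := fun σ hσ =>
    Finset.mem_range.2 (Nat.lt_succ_of_le (Finset.le_sup (f := List.length) hσ))
  rw [← Finset.sum_fiberwise_of_maps_to h6]
  have h7 : ∀ n ∈ Finset.range N, ∑ σ ∈ P.filter (fun σ => σ.length = n),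
      (1 / 2 : ℝ) * (1 / 2) ^ (2 * lg σ.length) * M σ ≤ (1 / 2) * (1 / 2) ^ (2 * lg n) := by
    intro n _
    have h8 : ∑ σ ∈ P.filter (fun σ => σ.length = n),
        (1 / 2 : ℝ) * (1 / 2) ^ (2 * lg σ.length) * M σ =
        (1 / 2) * (1 / 2) ^ (2 * lg n) * ∑ σ ∈ P.filter (fun σ => σ.length = n), M σ := by
      rw [Finset.mul_sum]
      refine Finset.sum_congr rfl fun σ hσ => ?_
      rw [(Finset.mem_filter.1 hσ).2]
    have h9 : ∑ σ ∈ P.filter (fun σ => σ.length = n), M σ ≤ 1 := by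
      refine le_trans (Finset.sum_le_sum_of_subset_of_nonneg (t := FS n) ?_ fun σ _ _ =>
        hM.nonneg σ) (sum_FS_le hM n)
      intro σ hσ
      exact mem_FS.2 (Finset.mem_filter.1 hσ).2
    rw [h8]
    have h4 : (0 : ℝ) ≤ (1 / 2) * (1 / 2) ^ (2 * lg n) := by positivity
    have h5 := mul_le_mul_of_nonneg_left h9 h4
    linarith
  refine (Finset.sum_le_sum h7).trans ?_
  rw [← Finset.mul_sum]
  have := sum_sq N
  linarith

/-- `K` exceeds the a priori complexity by at most a logarithmic term. -/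
theorem K_le {U : List Bool →. List Bool} (hU : IsUniversal U) (hM : IsSemimeasure M)
    (hL : LeftRE M) (hpos : ∀ σ, 0 < M σ) :
    ∃ C : ℝ, ∀ σ, (KU U σ : ℝ) ≤ KA M σ + 2 * Real.logb 2 (σ.length + 1) + C := by
  classical
  have hA : S1 fun x : List Bool × ℕ => (1 / 2 : ℝ) ^ x.2 < M x.1 := by
    have h1 := (S1.of_re hL).comp (f := fun x : List Bool × ℕ => (x.1, 1, 2 ^ x.2 - 1)) (by
      exact Primrec.fst.pair ((Primrec.const 1).pair (Primrec.nat_sub.comp
        (primrec_pow.comp (Primrec.const 2) Primrec.snd) (Primrec.const 1))))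
    refine h1.of_eq fun x => ?_
    simp only
    have h2 : (((2 ^ x.2 - 1 : ℕ) : ℝ)) + 1 = 2 ^ x.2 := by
      rw [Nat.cast_sub Nat.one_le_two_pow]; simp
    rw [h2, Nat.cast_one, one_div_pow]
  obtain ⟨q, hq, hmono, he⟩ := hA
  let first : List Bool × ℕ → ℕ → Prop := fun x s => q x s ∧ ∀ s' < s, ¬ q x s'
  have hfirst : PrimrecRel first := by
    refine PrimrecPred.and hq ?_
    refine PP.all_lt (α := (List Bool × ℕ) × ℕ) (f := fun a => a.2)
      (p := fun a s' => ¬ q a.1 s') ?_ Primrec.snd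
    exact PrimrecPred.not (hq.comp (Primrec.fst.comp Primrec.fst) Primrec.snd)
  let dd : ℕ → List Bool × ℕ := fun i => (decode (α := List Bool × ℕ) i.unpair.1).getD ([], 0)
  have hdd : Primrec dd := Primrec.option_getD.comp (Primrec.decode.comp (Primrec.fst.comp
    Primrec.unpair)) (Primrec.const ([], 0))
  let req : ℕ → Option (ℕ × List Bool) := fun i =>
    if encode (dd i) = i.unpair.1 ∧ first (dd i) i.unpair.2 then
      some ((dd i).2 + 2 + 2 * lg (dd i).1.length, (dd i).1) else none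
  have hreq : Primrec req := by
    refine Primrec.ite (PrimrecPred.and ?_ ?_) ?_ (Primrec.const none)
    · exact Primrec.eq.comp (Primrec.encode.comp hdd) (Primrec.fst.comp Primrec.unpair)
    · exact hfirst.comp hdd (Primrec.snd.comp Primrec.unpair)
    · refine Primrec.option_some.comp (Primrec.pair ?_ (Primrec.fst.comp hdd))
      refine Primrec.nat_add.comp (Primrec.nat_add.comp (Primrec.snd.comp hdd) (Primrec.const 2)) ?_
      exact Primrec.nat_mul.comp (Primrec.const 2) (pr_lg.comp (Primrec.list_length.comp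
        (Primrec.fst.comp hdd)))
  have hb : ∀ n, ∑ i ∈ Finset.range n, KC.wr req i ≤ 1 := by
    intro n
    let S := (Finset.range n).filter fun i => encode (dd i) = i.unpair.1 ∧ first (dd i) i.unpair.2
    have h1 : ∑ i ∈ Finset.range n, KC.wr req i =
        ∑ i ∈ S, (1 / 2 : ℝ) ^ ((dd i).2 + 2 + 2 * lg (dd i).1.length) := by
      rw [Finset.sum_filter]
      refine Finset.sum_congr rfl fun i _ => ?_
      by_cases h : encode (dd i) = i.unpair.1 ∧ first (dd i) i.unpair.2
      · simp only [KC.wr, req, if_pos h, Option.elim]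
      · simp only [KC.wr, req, if_neg h, Option.elim]
    have hinj : ∀ i ∈ S, ∀ j ∈ S, dd i = dd j → i = j := by
      intro i hi j hj h
      have hi := (Finset.mem_filter.1 hi).2
      have hj := (Finset.mem_filter.1 hj).2
      have h2 : i.unpair.1 = j.unpair.1 := by rw [← hi.1, ← hj.1, h]
      have h3 : i.unpair.2 = j.unpair.2 := by
        have hi2 := hi.2
        have hj2 := hj.2
        rw [← h] at hj2
        rcases Nat.lt_trichotomy i.unpair.2 j.unpair.2 with h4 | h4 | h4
        · exact absurd hi2.1 (hj2.2 _ h4)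
        · exact h4
        · exact absurd hj2.1 (hi2.2 _ h4)
      rw [← Nat.pair_unpair i, ← Nat.pair_unpair j, h2, h3]
    rw [h1]
    have h4 := weight_le hM (S.image dd) (by
      intro x hx
      obtain ⟨i, hi, rfl⟩ := Finset.mem_image.1 hx
      have hi := (Finset.mem_filter.1 hi).2
      exact (he _).2 ⟨_, hi.2.1⟩)
    rw [Finset.sum_image (by
      intro i hi j hj h
      exact hinj i hi j hj h)] at h4
    exact h4
  obtain ⟨V, hV1, hV2, hV3⟩ := KC.kraft_chaitin hreq hb
  obtain ⟨c, hc⟩ := hU.2 V ⟨hV1, hV2⟩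
  refine ⟨c + 5, fun σ => ?_⟩
  -- choice of `k`
  set k := ⌊KA M σ⌋₊ + 1 with hk
  have hKA : KA M σ < k := by
    rw [hk]; push_cast
    exact Nat.lt_floor_add_one _
  have hM1 : M σ ≤ 1 := by
    refine le_trans ?_ (sum_FS_le hM σ.length)
    exact Finset.single_le_sum (f := M) (fun τ _ => hM.nonneg τ) (mem_FS.2 rfl)
  have hKA0 : 0 ≤ KA M σ := by
    unfold KA
    have := Real.logb_nonpos (b := 2) (by norm_num) (hpos σ).le hM1
    linarith
  have hk2 : (k : ℝ) ≤ KA M σ + 1 := by
    rw [hk]; push_cast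
    have := Nat.floor_le hKA0
    linarith
  have hlt : (1 / 2 : ℝ) ^ k < M σ := by
    have h1 : Real.logb 2 ((1 / 2 : ℝ) ^ k) < Real.logb 2 (M σ) := by
      rw [one_div, inv_pow, Real.logb_inv, Real.logb_pow, Real.logb_self_eq_one (by norm_num),
        mul_one]
      unfold KA at hKA
      linarith
    exact (Real.logb_lt_logb_iff (by norm_num) (by positivity) (hpos σ)).1 h1
  have hex : ∃ s, q (σ, k) s := (he (σ, k)).1 hlt
  let s := Nat.find hex
  have hs : first (σ, k) s := ⟨Nat.find_spec hex, fun s' h => Nat.find_min hex h⟩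
  set i := Nat.pair (encode (σ, k)) s with hi
  have h1 : i.unpair = (encode (σ, k), s) := by rw [hi, Nat.unpair_pair]
  have h2 : dd i = (σ, k) := by
    simp only [dd, h1, encodek, Option.getD_some]
  have h3 : req i = some (k + 2 + 2 * lg σ.length, σ) := by
    simp only [req, h2, h1]
    rw [if_pos ⟨trivial, hs⟩]
  obtain ⟨τ, h4, h5⟩ := hV3 i _ _ h3
  obtain ⟨τ', h6, h7⟩ := hc τ _ h5
  have h8 := KU_le h7
  have h9 : (KU U σ : ℝ) ≤ k + 2 + 2 * lg σ.length + c := by
    have : KU U σ ≤ k + 2 + 2 * lg σ.length + c := by omega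
    exact_mod_cast this
  have h10 : (lg σ.length : ℝ) ≤ 1 + Real.logb 2 (σ.length + 1) := by
    have h11 : ((2 : ℝ) ^ lg σ.length) ≤ 2 * (σ.length + 1) := by exact_mod_cast (lg_spec _).2
    have h12 := Real.logb_le_logb_of_le (b := 2) (by norm_num) (by positivity) h11
    rw [Real.logb_pow, Real.logb_self_eq_one (by norm_num), mul_one,
      Real.logb_mul (by norm_num) (by positivity), Real.logb_self_eq_one (by norm_num)] at h12
    exact h12
  linarith

theorem logb_small {ε : ℝ} (hε : 0 < ε) : ∃ C : ℝ, ∀ l : ℕ, 2 * Real.logb 2 (l + 1) ≤ ε * l + C := by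
  have hlog : 0 < Real.log 2 := Real.log_pos (by norm_num)
  set a := ε * Real.log 2 / 2 with ha
  have ha0 : 0 < a := by positivity
  refine ⟨2 * (a - 1 - Real.log a) / Real.log 2, fun l => ?_⟩
  have hl : (0 : ℝ) < l + 1 := by positivity
  have h1 := Real.log_le_sub_one_of_pos (mul_pos ha0 hl)
  rw [Real.log_mul ha0.ne' hl.ne'] at h1
  have h2 : Real.log (l + 1) ≤ a * l + (a - 1 - Real.log a) := by linarith
  have h3 : 2 * Real.logb 2 (l + 1) = 2 * Real.log (l + 1) / Real.log 2 := by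
    rw [Real.logb, mul_div_assoc]
  rw [h3, div_le_iff₀ hlog]
  have h4 : (ε * l + 2 * (a - 1 - Real.log a) / Real.log 2) * Real.log 2 =
      2 * (a * l) + 2 * (a - 1 - Real.log a) := by
    rw [add_mul, div_mul_cancel₀ _ hlog.ne', ha]
    ring
  rw [h4]
  linarith

/-- `SC(δ)` and `SSC(δ)` are weakly equivalent. -/
theorem main {U : List Bool →. List Bool} (hU : IsUniversal U) {M : List Bool → ℝ}
    (hM : IsUniversalSM M) {δ : ℝ} (hδ : 0 < δ) :
    (∀ X ∈ SSC M δ, X ∈ SC U δ) ∧ ∀ X ∈ SC U δ, ∃ Z ∈ SSC M δ, TLe Z X := by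
  obtain ⟨C, hpos, hC⟩ := KA_le hU hM
  constructor
  · rintro X ⟨c, hc⟩
    refine ⟨c + ⌈C⌉₊, fun k l => ?_⟩
    have h1 := hc k l
    have h2 := hC (block X k l)
    have h3 := Nat.le_ceil C
    push_cast
    linarith
  · intro X hX
    obtain ⟨Z, hZX, ε, hε, c, hc⟩ := gain hU hδ hX
    obtain ⟨C1, hC1⟩ := K_le hU hM.semi hM.lre hpos
    obtain ⟨C2, hC2⟩ := logb_small hε
    refine ⟨Z, ⟨c + ⌈C1⌉₊ + ⌈C2⌉₊, fun k l => ?_⟩, hZX⟩
    have h1 := hc k l
    have h2 := hC1 (block Z k l)
    have h3 := hC2 l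
    have h4 := Nat.le_ceil C1
    have h5 := Nat.le_ceil C2
    rw [length_block] at h2
    push_cast
    linarith

end Pool.Agent.W968.SSC
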